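import Pool.Agent.W957.MF.Stm
import Pool.Agent.W957.MF.Stm2

set_option autoImplicit false

/-! Two-directional pin sequences. -/

namespace Pool.Agent.W356.MF

open Finset Pool.Agent.W957.MF

theorem sl_not_neg (b : Bool) (a c : ℤ) (h : sl b a c) : ¬ sl (!b) a c := by
  cases b <;> simp only [sl, Bool.not_true, Bool.not_false] at * <;> omega

theorem sl_not_rev (b : Bool) (a c : ℤ) (h : sl b a c) : ¬ sl b c a := by
  cases b <;> simp only [sl] at * <;> omega

/-- an increasing oscillation in the direction `q` -/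
structure Osc (z : Conf) (n : ℕ) (q : Bool → Bool) (ε : ℕ → Bool) : Prop where
  far : ∀ j i b, j ≤ n → 1 ≤ i → i + 2 ≤ j → sl (q b) (z b i) (z b j)
  nE : ∀ j, 1 ≤ j → j + 1 ≤ n → sl (q (!ε (j + 1))) (z (!ε (j + 1)) j) (z (!ε (j + 1)) (j + 1))
  nF : ∀ j, 1 ≤ j → j + 1 ≤ n → sl (!q (ε (j + 1))) (z (ε (j + 1)) j) (z (ε (j + 1)) (j + 1))

theorem occ_inj {z : Conf} {k : ℕ} {f : Fin k → ℕ} (h : ∀ i j, i < j ↔ z true (f i) < z true (f j)) :
    Function.Injective f := by
  intro i j hij
  by_contra hne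
  rcases lt_or_gt_of_ne hne with h1 | h1
  · have := (h i j).mp h1
    rw [hij] at this
    exact lt_irrefl _ this
  · have := (h j i).mp h1
    rw [hij] at this
    exact lt_irrefl _ this

theorem occ_surj {z : Conf} {k : ℕ} {f : Fin k → ℕ} {S : Finset ℕ}
    (h : ∀ i j, i < j ↔ z true (f i) < z true (f j)) (hS : ∀ i, f i ∈ S) (hc : S.card = k) :
    ∀ x ∈ S, ∃ i, f i = x := by
  have h1 : univ.image f = S := by
    apply Finset.eq_of_subset_of_card_le
    · intro x hx
      rw [mem_image] at hx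
      obtain ⟨i, _, rfl⟩ := hx
      exact hS i
    · rw [card_image_of_injective _ (occ_inj h), card_univ, Fintype.card_fin, hc]
  intro x hx
  rw [← h1, mem_image] at hx
  obtain ⟨i, _, hi⟩ := hx
  exact ⟨i, hi⟩

theorem noTR {z : Conf} {n : ℕ} {q : Bool → Bool} {ε : ℕ → Bool} (hO : Osc z n q ε) {l : ℕ}
    (σ : Equiv.Perm (Fin l)) (hl : l ≤ n) (hocc : Occ z (Icc 1 l) σ) (s e : ℕ) : ¬ TR z n σ s e := by
  rintro ⟨hse, hen, T, hT, hTs, hcard, h, hh, ht, hf⟩
  obtain ⟨f, fS, ft, ff⟩ := hocc
  have fcard : (Icc 1 l).card = l := by simp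
  have hinj := occ_inj ft
  have fsurj := occ_surj ft fS fcard
  have hsurj := occ_surj ht hh hcard
  -- the orders agree
  have hagree : ∀ (c : Bool) (u v : Fin l), z c (f u) < z c (f v) ↔ z c (h u) < z c (h v) := by
    intro c u v
    cases c
    · rw [← ff, hf]
    · rw [← ft, ht]
  have hagree2 : ∀ (c d : Bool) (u v : Fin l), sl d (z c (h u)) (z c (h v)) → sl d (z c (f u)) (z c (f v)) := by
    intro c d u v hs
    cases d
    · exact (hagree c v u).mpr hs
    · exact (hagree c u v).mpr hs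
  have hquad : ∀ u v : Fin l, h u ∈ T → h v ∉ T → ∀ c, sl (q c) (z c (f u)) (z c (f v)) := by
    intro u v hu hv c
    apply hagree2
    have hv' : h v ∈ Icc s e := by
      have := hh v
      rw [mem_union] at this
      exact this.resolve_left hv
    rw [mem_Icc] at hv'
    have := hTs _ hu
    exact hO.far _ _ c (by omega) (by omega) (by omega)
  have hstep : ∀ k, 1 ≤ k → k + 1 ≤ l → ∀ u v : Fin l, f u = k → f v = k + 1 → (h u ∈ T ↔ h v ∈ T) := by
    intro k hk hkl u v hu hv
    constructor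
    · intro h1
      by_contra h2
      have h3 := hquad u v h1 h2 (ε (k + 1))
      have h4 := hO.nF k hk (by omega)
      rw [hu, hv] at h3
      exact sl_not_neg _ _ _ h3 h4
    · intro h1
      by_contra h2
      have h3 := hquad v u h1 h2 (!ε (k + 1))
      have h4 := hO.nE k hk (by omega)
      rw [hu, hv] at h3
      exact sl_not_rev _ _ _ h3 h4
  have hall : ∀ k, 1 ≤ k → k ≤ l → ∀ u v : Fin l, f u = 1 → f v = k → (h u ∈ T ↔ h v ∈ T) := by
    intro k hk
    induction k, hk using Nat.le_induction with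
    | base =>
      intro _ u v hu hv
      have : u = v := hinj (by rw [hu, hv])
      rw [this]
    | succ k hk ih =>
      intro hkl u v hu hv
      obtain ⟨w, hw⟩ := fsurj k (by rw [mem_Icc]; omega)
      rw [ih (by omega) u w hu hw]
      exact hstep k hk hkl w v hw hv
  obtain ⟨t, htT⟩ := hT
  obtain ⟨a, ha⟩ := hsurj t (mem_union_left _ htT)
  obtain ⟨b, hb⟩ := hsurj s (mem_union_right _ (by rw [mem_Icc]; omega))
  have hsT : s ∉ T := fun hs => by
    have := hTs s hs
    omega
  have hfa := fS a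
  have hfb := fS b
  rw [mem_Icc] at hfa hfb
  obtain ⟨u, hu⟩ := fsurj 1 (by rw [mem_Icc]; omega)
  have e1 := hall (f a) hfa.1 hfa.2 u a hu rfl
  have e2 := hall (f b) hfb.1 hfb.2 u b hu rfl
  rw [ha] at e1
  rw [hb] at e2
  exact hsT (e2.mp (e1.mpr htT))

theorem occ_shift (z : Conf) (s e : ℕ) {k : ℕ} (σ : Equiv.Perm (Fin k)) :
    Occ (fun b i => z b (i + 2)) (Icc s e) σ ↔ Occ z (Icc (s + 2) (e + 2)) σ := by
  constructor
  · rintro ⟨f, fS, ft, ff⟩
    refine ⟨fun i => f i + 2, fun i => ?_, ft, ff⟩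
    have := fS i
    show f i + 2 ∈ _
    rw [mem_Icc] at this ⊢
    omega
  · rintro ⟨f, fS, ft, ff⟩
    have hf : ∀ i, f i - 2 + 2 = f i := by
      intro i
      have := fS i
      rw [mem_Icc] at this
      omega
    refine ⟨fun i => f i - 2, fun i => ?_, ?_, ?_⟩
    · have := fS i
      show f i - 2 ∈ _
      rw [mem_Icc] at this ⊢
      omega
    · intro i j
      simp only [hf]
      exact ft i j
    · intro i j
      simp only [hf]
      exact ff i j

theorem real_shift (z : Conf) (s e : ℕ) {k : ℕ} (σ : Equiv.Perm (Fin k)) :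
    Real (fun b i => z b (i + 2)) (Icc s e) σ ↔ Real z (Icc (s + 2) (e + 2)) σ := by
  unfold Pool.Agent.W957.MF.Real
  rw [occ_shift]
  have : (Icc s e).card = (Icc (s + 2) (e + 2)).card := by simp
  rw [this]

theorem t_OSC (h1 : S_CNT) (h2 : S_PIN) (h3 : S_AP) (h4 : S_NF) (h5 : S_CODE) (h6 : S_PINF) (h7 : S_APC)
    (_h8 : S_PAT) : S_OSC := by
  intro C B _ hB H
  set N : ℕ := 8 * B + 2 with hN
  obtain ⟨n', hn'⟩ : ∃ n', n' = N ^ 2 := ⟨_, rfl⟩
  have hN2 : 2 ≤ N := by omega
  have hn4 : 4 ≤ n' := by rw [hn']; nlinarith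
  obtain ⟨z, Q, e, hP, hC, hdir⟩ := H (n' + 2)
  have hpf := h6 z (n' + 2) Q e hP
  have hQs : ∀ i, 3 ≤ i → i + 2 ≤ n' + 2 → Q (i + 2) = Q (i + 1) := by
    intro i hi hin
    obtain ⟨a1, a2⟩ := hpf i hi (by omega)
    obtain ⟨b1, b2⟩ := hpf (i + 1) (by omega) (by omega)
    have hd := hdir i hi hin
    unfold dir at hd
    have hd2 : Q i (!e i) = Q (i + 2) (!e (i + 2)) := congrArg Prod.snd hd
    have hd1 : e i = e (i + 2) := congrArg Prod.fst hd
    rw [← hd1] at hd2
    have b2' : Q (i + 2) (e i) = Q (i + 1) (e i) := by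
      have : (!e (i + 1)) = e i := by rw [a1, Bool.not_not]
      rw [this] at b2
      exact b2
    funext b
    by_cases hb : b = e i
    · rw [hb]; exact b2'
    · have hb' : b = !e i := by
        cases b <;> cases h : e i <;> simp_all
      rw [hb', ← hd2, a2]
  have hQ : ∀ j, 4 ≤ j → j ≤ n' + 2 → Q j = Q 4 := by
    intro j hj
    induction j, hj using Nat.le_induction with
    | base => intro _; rfl
    | succ j hj ih =>
      intro hjn
      obtain ⟨i, rfl⟩ : ∃ i, j = i + 1 := ⟨j - 1, by omega⟩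
      rw [hQs i (by omega) (by omega)]
      exact ih (by omega)
  have he : ∀ j, 3 ≤ j → j ≤ n' + 2 → e j = if j % 2 = 1 then e 3 else !e 3 := by
    intro j hj
    induction j, hj using Nat.le_induction with
    | base => intro _; simp
    | succ j hj ih =>
      intro hjn
      rw [(hpf j hj hjn).1, ih (by omega)]
      by_cases hp : j % 2 = 1
      · rw [if_pos hp, if_neg (by omega)]
      · rw [if_neg hp, if_pos (by omega), Bool.not_not]
  set z' : Conf := fun b i => z b (i + 2) with hz'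
  have hO : Osc z' n' (Q 4) (fun j => e (j + 2)) := by
    refine ⟨?_, ?_, ?_⟩
    · intro j i b hj hi hij
      have := hP.far (j + 2) (i + 2) b (by omega) (by omega) (by omega) (by omega)
      rw [hQ (j + 2) (by omega) (by omega)] at this
      exact this
    · intro j hj hjn
      have := hP.nearE (j + 1 + 2) (by omega) (by omega)
      rw [hQ (j + 1 + 2) (by omega) (by omega)] at this
      exact this
    · intro j hj hjn
      have := hP.nearF (j + 1 + 2) (by omega) (by omega)
      rw [hQ (j + 1 + 2) (by omega) (by omega)] at this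
      exact this
  have hP' : Pin z' n' (fun j => Q (j + 2)) (fun j => e (j + 2)) := by
    refine ⟨?_, ?_, ?_, ?_⟩
    · intro b x hx y hy hxy
      rw [mem_coe, mem_Icc] at hx hy
      have hxS : x + 2 ∈ ((Icc 1 (n' + 2) : Finset ℕ) : Set ℕ) := by rw [mem_coe, mem_Icc]; omega
      have hyS : y + 2 ∈ ((Icc 1 (n' + 2) : Finset ℕ) : Set ℕ) := by rw [mem_coe, mem_Icc]; omega
      have := hP.gp b hxS hyS hxy
      omega
    · intro j i b h3j hj hi hij
      exact hP.far (j + 2) (i + 2) b (by omega) (by omega) (by omega) (by omega)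
    · intro j h3j hj
      obtain ⟨i, rfl⟩ : ∃ i, j = i + 1 := ⟨j - 1, by omega⟩
      exact hP.nearE (i + 1 + 2) (by omega) (by omega)
    · intro j h3j hj
      obtain ⟨i, rfl⟩ : ∃ i, j = i + 1 := ⟨j - 1, by omega⟩
      exact hP.nearF (i + 1 + 2) (by omega) (by omega)
  have hC' : InC C z' (Icc 1 n') := by
    intro k σ hocc
    apply hC k σ
    rw [hz', occ_shift] at hocc
    obtain ⟨f, fS, ft, ff⟩ := hocc
    refine ⟨f, fun i => ?_, ft, ff⟩
    have := fS i
    rw [mem_Icc] at this ⊢
    omega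
  have hcnt := h1 C B hB z' n' _ _ hP' (by omega) hC'
  -- the windows
  have hcode : ∀ (l : ℕ) (σ : Equiv.Perm (Fin l)) (s s' : ℕ), 2 ≤ l → 1 ≤ s → 1 ≤ s' → s + l ≤ n' + 1 →
      s' + l ≤ n' + 1 → s % 2 = s' % 2 → Real z' (Icc s (s + l - 1)) σ → Real z' (Icc s' (s' + l - 1)) σ := by
    intro l σ s s' hl hs hs' hsl hsl' hpar hr
    rw [hz', real_shift] at hr ⊢
    have hr' : Real z (Icc (s + 2) (s + 2 + l - 1)) σ := by
      have : s + l - 1 + 2 = s + 2 + l - 1 := by omega
      rwa [this] at hr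
    have := h5 z (n' + 2) Q e hP l σ (s + 2) (s' + 2) hl (by omega) (by omega) (by omega) (by omega) (by
      intro j hj hjl
      refine ⟨?_, ?_⟩
      · rw [hQ _ (by omega) (by omega), hQ (s' + 2 + j) (by omega) (by omega)]
      · rw [he _ (by omega) (by omega), he (s' + 2 + j) (by omega) (by omega)]
        have : (s + 2 + j) % 2 = (s' + 2 + j) % 2 := by omega
        rw [this]) hr'
    have e3 : s' + l - 1 + 2 = s' + 2 + l - 1 := by omega
    rw [e3]
    exact this
  -- the filter is contained in the union of the two sets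
  classical
  have hsub : (Icc 2 n').filter (fun l => GN z' n' l) ⊆
      ((Icc 1 n').filter (fun l => ∃ K, n' = l + K * 1 ∧
        ((l / 1 + 1) ∣ K ∨ (1 ≤ K ∧ (l / 1 + 1) ∣ (K - 1))))) ∪
      ((Icc 1 n').filter (fun l => ∃ K, n' = l + K * 2 ∧
        ((l / 2 + 1) ∣ K ∨ (1 ≤ K ∧ (l / 2 + 1) ∣ (K - 1))))) := by
    intro l hl
    rw [mem_filter, mem_Icc] at hl
    obtain ⟨⟨hl2, hln⟩, σ, hocc, hg⟩ := hl
    have hg' : NF (FI z' n' σ) n' ≠ 0 := by
      rw [h2 z' n' _ _ hP' (by omega) l σ hl2] at hg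
      intro h0
      rw [h0] at hg
      simp at hg
    have hTR := noTR hO σ hln hocc
    have hreal1 : Real z' (Icc 1 (1 + l - 1)) σ := by
      have : 1 + l - 1 = l := by omega
      rw [this]
      exact ⟨by simp, hocc⟩
    have hFI : ∀ s e', FI z' n' σ s e' → 1 ≤ s ∧ s ≤ e' ∧ e' ≤ n' ∧ e' = s + l - 1 ∧
        Real z' (Icc s (s + l - 1)) σ := by
      intro s e' hF
      rcases hF with hF | hF
      · exact absurd hF (hTR s e')
      · obtain ⟨a1, a2, a3, a4⟩ := hF
        have hc := a4.1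
        rw [Nat.card_Icc] at hc
        have hes : e' = s + l - 1 := by omega
        rw [← hes]
        exact ⟨a1, a2, a3, rfl, a4⟩
    have hFI' : ∀ s, 1 ≤ s → s + l ≤ n' + 1 → Real z' (Icc s (s + l - 1)) σ → FI z' n' σ s (s + l - 1) := by
      intro s hs hsl hr
      exact Or.inr ⟨hs, by omega, by omega, hr⟩
    by_cases hev : ∃ s, s % 2 = 0 ∧ 1 ≤ s ∧ s + l ≤ n' + 1 ∧ Real z' (Icc s (s + l - 1)) σ
    · obtain ⟨s0, s0e, s01, s0l, s0r⟩ := hev
      apply mem_union_left
      rw [mem_filter, mem_Icc]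
      refine ⟨⟨by omega, hln⟩, n' - l, by omega, ?_⟩
      refine h3 (FI z' n' σ) 1 l (n' - l) n' le_rfl (by omega) (by omega) ?_ hg'
      intro s e'
      constructor
      · intro hF
        obtain ⟨a1, a2, a3, a4, a5⟩ := hFI s e' hF
        exact ⟨s - 1, by omega, by omega, by omega⟩
      · rintro ⟨k, hk, rfl, rfl⟩
        have hr : Real z' (Icc (1 + k * 1) (1 + k * 1 + l - 1)) σ := by
          by_cases hpar : (1 + k * 1) % 2 = 1
          · exact hcode l σ 1 _ hl2 le_rfl (by omega) (by omega) (by omega) (by omega) hreal1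
          · exact hcode l σ s0 _ hl2 s01 (by omega) s0l (by omega) (by omega) s0r
        have e4 : k * 1 + l = 1 + k * 1 + l - 1 := by omega
        rw [e4]
        exact hFI' _ (by omega) (by omega) hr
    · apply mem_union_right
      rw [mem_filter, mem_Icc]
      have hodd : ∀ s e', FI z' n' σ s e' → s % 2 = 1 := by
        intro s e' hF
        obtain ⟨a1, a2, a3, a4, a5⟩ := hFI s e' hF
        by_contra hne
        exact hev ⟨s, by omega, a1, by omega, a5⟩
      by_cases hpar : (n' - l) % 2 = 0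
      · refine ⟨⟨by omega, hln⟩, (n' - l) / 2, by omega, ?_⟩
        refine h3 (FI z' n' σ) 2 l ((n' - l) / 2) n' (by omega) (by omega) (by omega) ?_ hg'
        intro s e'
        constructor
        · intro hF
          obtain ⟨a1, a2, a3, a4, a5⟩ := hFI s e' hF
          have := hodd s e' hF
          exact ⟨(s - 1) / 2, by omega, by omega, by omega⟩
        · rintro ⟨k, hk, rfl, rfl⟩
          have hr : Real z' (Icc (1 + k * 2) (1 + k * 2 + l - 1)) σ :=
            hcode l σ 1 _ hl2 le_rfl (by omega) (by omega) (by omega) (by omega) hreal1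
          have e4 : k * 2 + l = 1 + k * 2 + l - 1 := by omega
          rw [e4]
          exact hFI' _ (by omega) (by omega) hr
      · exfalso
        apply hg'
        refine (h4 (FI z' n' σ) n' (by omega) (fun s e' hF => ?_)).2.2 (fun s hF => ?_)
        · obtain ⟨a1, a2, a3, a4, a5⟩ := hFI s e' hF
          exact ⟨a1, a2, a3⟩
        · obtain ⟨a1, a2, a3, a4, a5⟩ := hFI s n' hF
          have := hodd s n' hF
          omega
  have hcard := (card_le_card hsub).trans (card_union_le _ _)
  have ha1 := h7 1 n' le_rfl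
  have ha2 := h7 2 n' (by omega)
  have hs1 : Nat.sqrt (n' / 1 + 1) ≤ N := by
    rw [Nat.div_one]
    have : Nat.sqrt (n' + 1) < N + 1 := by
      rw [Nat.sqrt_lt', hn']
      nlinarith
    omega
  have hs2 : Nat.sqrt (n' / 2 + 1) ≤ N := by
    refine le_trans (Nat.sqrt_le_sqrt ?_) hs1
    rw [Nat.div_one]
    omega
  have hfin : n' ≤ 1 + B * (8 * N) := by
    refine hcnt.trans ?_
    have h9 : ((Icc 2 n').filter (fun l => GN z' n' l)).card ≤ 8 * N := by
      have b1 := ha1.trans (Nat.mul_le_mul_left 4 hs1)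
      have b2 := ha2.trans (Nat.mul_le_mul_left 4 hs2)
      refine hcard.trans ?_
      refine (Nat.add_le_add ?_ ?_).trans (le_of_eq (by ring : 4 * N + 4 * N = 8 * N))
      · convert b1
      · convert b2
    refine Nat.add_le_add_left (Nat.mul_le_mul_left B ?_) 1
    convert h9
  rw [hn', pow_two] at hfin
  have : N * N = 8 * B * N + 2 * N := by
    conv_lhs => rw [hN]
    rw [hN]
    ring
  nlinarith

end Pool.Agent.W356.MF
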